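import Pool.Agent.Helper88.QR.StmtsB
import Pool.Agent.Helper88.QR.HitB

/-!
# QR block B, row B02: the contour structure of a pointed map
-/

namespace QRB

open QR

section B02

variable {D : Type} {m : RMap D} {lam : D → ℕ}

theorem b02_face (h : PLM m lam) (d : D) : lam (m.face d) = lam (m.opp d) :=
  h.rot (m.opp d)

theorem b02_rotinv (h : PLM m lam) (d : D) : lam (m.rot⁻¹ d) = lam d := by
  have h1 := h.rot (m.rot.symm d)
  rw [Equiv.apply_symm_apply] at h1
  exact h1.symm

theorem b02_rotinv_pow (h : PLM m lam) (k : ℕ) (d : D) : lam ((m.rot⁻¹ ^ k) d) = lam d := by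
  induction k with
  | zero => simp
  | succ k ih => rw [pow_succ', Equiv.Perm.mul_apply, b02_rotinv h, ih]

theorem b02_hit_lam (h : PLM m lam) {p : D → Prop} {x y : D} (hh : Hit m.rot⁻¹ p x y) :
    lam y = lam x := by
  obtain ⟨k, _, h2, _, _⟩ := hh
  rw [← h2, b02_rotinv_pow h]

/-- opp of a down dart is not a down dart -/
theorem b02_opp_not (h : PLM m lam) {x : D} (hx : Des m lam x) : ¬ Des m lam (m.opp x) := by
  intro hy
  unfold Des at hx hy
  rw [m.opp_opp] at hy
  omega

/-- opp of an up dart is a down dart -/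
theorem b02_opp_des (h : PLM m lam) {x : D} (hx : ¬ Des m lam x) : Des m lam (m.opp x) := by
  unfold Des at hx ⊢
  rw [m.opp_opp]
  rcases h.opp x with h1 | h1
  · omega
  · exact absurd h1 hx

theorem b02_not_lam (h : PLM m lam) {x : D} (hx : ¬ Des m lam x) :
    lam (m.opp x) = lam x + 1 := by
  rcases h.opp x with h1 | h1
  · exact h1
  · exact absurd h1 hx

theorem b02_rotinv_face (d : D) : m.rot⁻¹ (m.face d) = m.opp d := by
  show m.rot.symm (m.rot (m.opp d)) = m.opp d
  rw [Equiv.symm_apply_apply]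

/-- the chain of up darts after the down dart `c`: `k` is the first return time -/
structure Chn (m : RMap D) (lam : D → ℕ) (c a : D) (k : ℕ) : Prop where
  kpos : 0 < k
  last : (m.face ^ k) c = a
  up : ∀ j, 0 < j → j < k → ¬ Des m lam ((m.face ^ j) c)
  lm : ∀ j, 1 ≤ j → j ≤ k → lam ((m.face ^ j) c) + 2 = lam c + j

theorem b02_chn (h : PLM m lam) {c a : D} (hc : Des m lam c) (hh : Hit m.face (Des m lam) c a) :
    ∃ k, Chn m lam c a k := by
  obtain ⟨k, h1, h2, h3, h4⟩ := hh
  refine ⟨k, h1, h2, h4, ?_⟩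
  intro j hj hjk
  induction j with
  | zero => omega
  | succ j ih =>
    rw [pow_succ', Equiv.Perm.mul_apply, b02_face h]
    rcases Nat.eq_zero_or_pos j with h0 | h0
    · subst h0
      simp only [pow_zero, Equiv.Perm.one_apply]
      unfold Des at hc
      omega
    · have := ih h0 (by omega)
      rw [b02_not_lam h (h4 j h0 (by omega))]
      omega

end B02

section B02b

variable {D : Type} {m : RMap D} {lam : D → ℕ}

/-- the first down dart clockwise after `opp x` -/
def G (m : RMap D) (lam : D → ℕ) (x f : D) : Prop := Hit m.rot⁻¹ (Des m lam) (m.opp x) f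

/-- `τ`, `α` are the contour and the face successor -/
structure Ctr (m : RMap D) (lam : D → ℕ) (τ α : Equiv.Perm (Dn m lam)) : Prop where
  ha : ∀ c : Dn m lam, Hit m.face (Des m lam) c.1 (α c).1
  ht : ∀ c : Dn m lam, Hit m.rot⁻¹ (Des m lam) (α c).1 (τ c).1

variable {τ α : Equiv.Perm (Dn m lam)}

theorem Ctr.ve (H : Ctr m lam τ α) (h : PLM m lam) (c : Dn m lam) :
    lam (τ c).1 = lam (α c).1 := b02_hit_lam h (H.ht c)

/-- the members of the chain -/
theorem Ctr.last (H : Ctr m lam τ α) (h : PLM m lam) {c : Dn m lam} {k : ℕ}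
    (hk : Chn m lam c.1 (α c).1 k) (h2 : 2 ≤ k) :
    (τ c).1 = m.opp ((m.face ^ (k - 1)) c.1) := by
  have h1 : m.rot⁻¹ (α c).1 = m.opp ((m.face ^ (k - 1)) c.1) := by
    rw [← hk.last]
    have : (m.face ^ k) c.1 = m.face ((m.face ^ (k - 1)) c.1) := by
      rw [← Equiv.Perm.mul_apply, ← pow_succ']
      congr 2
      omega
    rw [this, b02_rotinv_face]
  have h3 : Des m lam (m.rot⁻¹ (α c).1) := by
    rw [h1]
    exact b02_opp_des h (hk.up _ (by omega) (by omega))
  rw [(H.ht c).eq_of_p h3, h1]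

/-- the chain seen from `c` along the contour: `e_i` is the first element with label at most its
own, given the claim for larger labels -/
theorem Ctr.chain (H : Ctr m lam τ α) (h : PLM m lam) {c : Dn m lam} {k : ℕ}
    (hk : Chn m lam c.1 (α c).1 k)
    (hc : ∀ x f : Dn m lam, lam c.1 < lam x.1 → G m lam x.1 f.1 →
      Hit τ (fun z => lam z.1 < lam x.1) x f)
    (n : ℕ) : ∀ i, 1 ≤ i → i + n + 1 = k → ∀ e : Dn m lam, e.1 = m.opp ((m.face ^ i) c.1) →
      Lo τ (lb m lam) c e := by
  induction n with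
  | zero =>
    intro i hi hik e he
    have h1 : τ c = e := by
      apply Subtype.ext
      rw [H.last h hk (by omega), he]
      congr 3
      omega
    unfold Lo
    rw [← h1]
    exact Hit.one (le_refl _)
  | succ n ih =>
    intro i hi hik e he
    have hup := hk.up (i + 1) (by omega) (by omega)
    have hup0 := hk.up i (by omega) (by omega)
    set e' : Dn m lam := ⟨m.opp ((m.face ^ (i + 1)) c.1), b02_opp_des h hup⟩ with he'
    have hl' : lam e'.1 = lam c.1 + i := by
      have := hk.lm (i + 1) (by omega) (by omega)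
      have h3 := b02_not_lam h hup
      show lam (m.opp ((m.face ^ (i + 1)) c.1)) = _
      omega
    have hl : lam e.1 + 1 = lam c.1 + i := by
      have := hk.lm i (by omega) (by omega)
      have h3 := b02_not_lam h hup0
      rw [he]
      omega
    have hG : G m lam e'.1 e.1 := by
      have h4 : m.rot⁻¹ (m.opp e'.1) = e.1 := by
        show m.rot⁻¹ (m.opp (m.opp ((m.face ^ (i + 1)) c.1))) = e.1
        rw [m.opp_opp, pow_succ', Equiv.Perm.mul_apply, b02_rotinv_face, he]
      have h5 : Hit m.rot⁻¹ (Des m lam) (m.opp e'.1) (m.rot⁻¹ (m.opp e'.1)) :=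
        Hit.one (by rw [h4]; exact e.2)
      rw [h4] at h5
      exact h5
    have h6 := ih (i + 1) (by omega) (by omega) e' rfl
    have h7 := hc e' e (by omega) hG
    unfold Lo lb at h6 ⊢
    have h8 : Hit τ (fun z => lam z.1 ≤ lam e.1) e' e :=
      h7.mono (le_refl _) (fun z hz => by
        show lam z.1 < lam e'.1
        omega)
    refine Hit.trans h6 h8 ?_ ?_
    · intro w hw
      show lam w.1 ≤ lam e'.1
      omega
    · show ¬ (lam e'.1 ≤ lam e.1)
      omega

/-- the claim: from `x` the first element with a smaller label is `f` -/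
theorem Ctr.claim [Finite D] (H : Ctr m lam τ α) (h : PLM m lam) {B : ℕ} (hB : ∀ d, lam d ≤ B) (n : ℕ) :
    ∀ L, L + n = B + 1 → 2 ≤ L → ∀ j : ℕ, ∀ x f : Dn m lam, lam x.1 = L →
      Des m lam ((m.rot ^ (j + 1)) (m.opp x.1)) →
      (∀ i, 0 < i → i < j + 1 → ¬ Des m lam ((m.rot ^ i) (m.opp x.1))) →
      G m lam x.1 f.1 → Hit τ (fun z => lam z.1 < L) x f := by
  induction n using Nat.strong_induction_on with
  | _ n ihn =>
    intro L hL h2 j
    -- the outer claim for larger labels
    have hout : ∀ x f : Dn m lam, L < lam x.1 → G m lam x.1 f.1 →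
        Hit τ (fun z => lam z.1 < lam x.1) x f := by
      intro x f hx hG
      have hxB := hB x.1
      have hs : m.rot.SameCycle (m.opp x.1) f.1 := by
        have := Hit.sameCycle hG
        rwa [Equiv.Perm.sameCycle_inv] at this
      obtain ⟨y, k, hk1, hk2, hk3, hk4⟩ := Hit.exists_of_sameCycle (p := Des m lam) hs f.2
      obtain ⟨j', rfl⟩ : ∃ j', k = j' + 1 := ⟨k - 1, by omega⟩
      exact ihn (B + 1 - lam x.1) (by omega) (lam x.1) (by omega) (by omega) j' x f rfl
        (by rw [hk2]; exact hk3) hk4 hG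
    induction j with
    | zero =>
      intro x f hx hd _ hG
      have h1 : (α x).1 = m.face x.1 := by
        refine (H.ha x).eq_of_p ?_
        rw [zero_add, pow_one] at hd
        exact hd
      have h3 : Hit m.rot⁻¹ (Des m lam) (m.opp x.1) (τ x).1 := by
        have h4 : m.rot⁻¹ (α x).1 = m.opp x.1 := by rw [h1, b02_rotinv_face]
        have h5 := Hit.unstep (by rw [h4]; exact b02_opp_not h x.2) (H.ht x)
        rw [h4] at h5
        exact h5
      have h6 : τ x = f := Subtype.ext (h3.unique hG)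
      have h7 : lam f.1 = lam (m.opp x.1) := b02_hit_lam h hG
      have h8 : lam (m.opp x.1) + 1 = lam x.1 := x.2
      rw [← h6]
      refine Hit.one ?_
      rw [h6]
      show lam f.1 < L
      omega
    | succ j ihj =>
      intro x f hx hd hn hG
      have hnd : ¬ Des m lam (m.face x.1) := by
        have := hn 1 one_pos (by omega)
        rw [pow_one] at this
        exact this
      obtain ⟨k, hk⟩ := b02_chn h x.2 (H.ha x)
      have hk2 : 2 ≤ k := by
        by_contra hcon
        have hk1 : k = 1 := by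
          have := hk.kpos
          omega
        have h1 := hk.last
        rw [hk1, pow_one] at h1
        exact hnd (h1 ▸ (α x).2)
      set e : Dn m lam := ⟨m.opp (m.face x.1), b02_opp_des h hnd⟩ with he
      have hle : lam e.1 = L := by
        have h3 := hk.lm 1 (le_refl _) (by omega)
        rw [pow_one] at h3
        have h4 := b02_not_lam h hnd
        show lam (m.opp (m.face x.1)) = L
        omega
      have h1 : Lo τ (lb m lam) x e := by
        refine H.chain h hk (fun x' f' hx' hG' => hout x' f' (by omega) hG') (k - 2) 1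
          (le_refl _) (by omega) e ?_
        rw [pow_one]
      have hoe : m.opp e.1 = m.face x.1 := by
        show m.opp (m.opp (m.face x.1)) = m.face x.1
        rw [m.opp_opp]
      have hGe : G m lam e.1 f.1 := by
        unfold G
        rw [hoe]
        refine Hit.step ?_ ?_
        · rw [b02_rotinv_face]
          exact b02_opp_not h x.2
        · rw [b02_rotinv_face]
          exact hG
      have hpow : ∀ i : ℕ, (m.rot ^ i) (m.opp e.1) = (m.rot ^ (i + 1)) (m.opp x.1) := by
        intro i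
        rw [hoe, pow_succ, Equiv.Perm.mul_apply]
        rfl
      have h3 := ihj e f hle (by rw [hpow]; exact hd)
        (fun i hi hi' => by rw [hpow]; exact hn (i + 1) (by omega) (by omega)) hGe
      refine Hit.trans h1 h3 ?_ ?_
      · intro w hw
        show lam w.1 ≤ lam e.1
        have : lam w.1 < L := hw
        omega
      · show ¬ (lam e.1 < L)
        omega

/-- the claim, final form -/
theorem Ctr.claim' [Finite D] (H : Ctr m lam τ α) (h : PLM m lam) (x f : Dn m lam)
    (hx : 2 ≤ lam x.1) (hG : G m lam x.1 f.1) : Hit τ (fun z => lam z.1 < lam x.1) x f := by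
  classical
  obtain ⟨B, hB⟩ : ∃ B, ∀ d, lam d ≤ B := by
    obtain ⟨B, hB⟩ := (Set.finite_range lam).bddAbove
    exact ⟨B, fun d => hB ⟨d, rfl⟩⟩
  have hxB := hB x.1
  have hs : m.rot.SameCycle (m.opp x.1) f.1 := by
    have := Hit.sameCycle hG
    rwa [Equiv.Perm.sameCycle_inv] at this
  obtain ⟨y, k, hk1, hk2, hk3, hk4⟩ := Hit.exists_of_sameCycle (p := Des m lam) hs f.2
  obtain ⟨j', rfl⟩ : ∃ j', k = j' + 1 := ⟨k - 1, by omega⟩
  exact H.claim h hB (B + 1 - lam x.1) (lam x.1) (by omega) hx j' x f rfl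
    (by rw [hk2]; exact hk3) hk4 hG

/-- (3): the members of the chain seen from `c` -/
theorem Ctr.lo [Finite D] (H : Ctr m lam τ α) (h : PLM m lam) {c : Dn m lam} {k : ℕ}
    (hk : Chn m lam c.1 (α c).1 k) {i : ℕ} (hi : 1 ≤ i) (hik : i < k) (e : Dn m lam)
    (he : e.1 = m.opp ((m.face ^ i) c.1)) : Lo τ (lb m lam) c e := by
  have hc1 : 1 ≤ lam c.1 := by
    have : lam (m.opp c.1) + 1 = lam c.1 := c.2
    omega
  exact H.chain h hk (fun x f hx hG => H.claim' h x f (by omega) hG) (k - i - 1) i hi
    (by omega) e he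

/-- labels of the members -/
theorem Chn.lab (h : PLM m lam) {c a : D} {k : ℕ} (hk : Chn m lam c a k) {i : ℕ} (hi : 1 ≤ i)
    (hik : i < k) : lam (m.opp ((m.face ^ i) c)) + 1 = lam c + i := by
  have h1 := hk.lm i hi (by omega)
  have h2 := b02_not_lam h (hk.up i (by omega) hik)
  omega

theorem Ctr.lamtau (H : Ctr m lam τ α) (h : PLM m lam) {c : Dn m lam} {k : ℕ}
    (hk : Chn m lam c.1 (α c).1 k) : lam (τ c).1 + 2 = lam c.1 + k := by
  have h1 := hk.lm k hk.kpos (le_refl _)
  rw [hk.last] at h1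
  rw [H.ve h]
  exact h1

/-- label `1`: all in one cycle -/
theorem Ctr.step0 [Finite D] (H : Ctr m lam τ α) (h : PLM m lam) (x y : Dn m lam)
    (hx : lam x.1 = 1) (hy : y.1 = m.opp (m.face x.1)) : τ.SameCycle x y := by
  have hx0 : lam (m.opp x.1) = 0 := by
    have : lam (m.opp x.1) + 1 = lam x.1 := x.2
    omega
  have hnd : ¬ Des m lam (m.face x.1) := by
    intro hd
    have h1 : lam (m.opp (m.face x.1)) + 1 = lam (m.face x.1) := hd
    rw [b02_face h] at h1
    omega
  obtain ⟨k, hk⟩ := b02_chn h x.2 (H.ha x)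
  have hk2 : 1 < k := by
    by_contra hcon
    have hk1 : k = 1 := by
      have := hk.kpos
      omega
    have h1 := hk.last
    rw [hk1, pow_one] at h1
    exact hnd (h1 ▸ (α x).2)
  have h1 := H.lo h hk (le_refl 1) hk2 y (by rw [pow_one]; exact hy)
  exact Hit.sameCycle h1

theorem b02_zero_des (h : PLM m lam) {d : D} (hd : lam d = 0) : Des m lam (m.opp d) := by
  apply b02_opp_des h
  intro h1
  have : lam (m.opp d) + 1 = lam d := h1
  omega

theorem Ctr.orb0 [Finite D] (H : Ctr m lam τ α) (h : PLM m lam) (n : ℕ) : ∀ x y : Dn m lam,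
    lam x.1 = 1 → (m.rot ^ n) (m.opp x.1) = m.opp y.1 → τ.SameCycle x y := by
  induction n with
  | zero =>
    intro x y _ hxy
    rw [pow_zero, Equiv.Perm.one_apply] at hxy
    have : x = y := Subtype.ext (m.opp.injective hxy)
    rw [this]
  | succ n ih =>
    intro x y hx hxy
    have hx0 : lam (m.opp x.1) = 0 := by
      have : lam (m.opp x.1) + 1 = lam x.1 := x.2
      omega
    have hf0 : lam (m.face x.1) = 0 := by rw [b02_face h]; exact hx0
    set z : Dn m lam := ⟨m.opp (m.face x.1), b02_zero_des h hf0⟩ with hz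
    have h1 : τ.SameCycle x z := H.step0 h x z hx rfl
    refine h1.trans (ih z y ?_ ?_)
    · have h2 : lam (m.opp z.1) + 1 = lam z.1 := z.2
      have h3 : m.opp z.1 = m.face x.1 := by
        show m.opp (m.opp (m.face x.1)) = _
        rw [m.opp_opp]
      rw [h3] at h2
      omega
    · have h3 : m.opp z.1 = m.face x.1 := by
        show m.opp (m.opp (m.face x.1)) = _
        rw [m.opp_opp]
      rw [h3, ← hxy, pow_succ, Equiv.Perm.mul_apply]
      rfl

theorem Ctr.to1 [Finite D] (H : Ctr m lam τ α) (h : PLM m lam) (n : ℕ) : ∀ x : Dn m lam,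
    lam x.1 = n + 1 → ∃ y : Dn m lam, lam y.1 = 1 ∧ τ.SameCycle x y := by
  induction n with
  | zero => exact fun x hx => ⟨x, hx, Equiv.Perm.SameCycle.refl _ _⟩
  | succ n ih =>
    intro x hx
    have h1 : lam (m.opp x.1) + 1 = lam x.1 := x.2
    obtain ⟨d', hd1, hd2⟩ := h.low (m.opp x.1) (by omega)
    have hs : (m.rot⁻¹).SameCycle (m.opp x.1) d' := by rwa [Equiv.Perm.sameCycle_inv]
    obtain ⟨f, hf⟩ := Hit.exists_of_sameCycle (p := Des m lam) hs hd2
    set f' : Dn m lam := ⟨f, hf.p⟩ with hf'
    have h2 : lam f'.1 = lam (m.opp x.1) := b02_hit_lam h hf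
    have h3 := H.claim' h x f' (by omega) hf
    obtain ⟨y, hy1, hy2⟩ := ih f' (by omega)
    exact ⟨y, hy1, (Hit.sameCycle h3).trans hy2⟩

theorem Ctr.cyc [Finite D] (H : Ctr m lam τ α) (h : PLM m lam) : OneCyc τ := by
  intro x y
  have hx : 1 ≤ lam x.1 := by
    have : lam (m.opp x.1) + 1 = lam x.1 := x.2
    omega
  have hy : 1 ≤ lam y.1 := by
    have : lam (m.opp y.1) + 1 = lam y.1 := y.2
    omega
  obtain ⟨x', hx1, hx2⟩ := H.to1 h (lam x.1 - 1) x (by omega)
  obtain ⟨y', hy1, hy2⟩ := H.to1 h (lam y.1 - 1) y (by omega)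
  have hx0 : lam (m.opp x'.1) = 0 := by
    have : lam (m.opp x'.1) + 1 = lam x'.1 := x'.2
    omega
  have hy0 : lam (m.opp y'.1) = 0 := by
    have : lam (m.opp y'.1) + 1 = lam y'.1 := y'.2
    omega
  obtain ⟨n, _, _, hn⟩ := (h.zero _ _ hx0 hy0).exists_pow_eq''
  exact hx2.trans ((H.orb0 h n x' y' hx1 hn).trans hy2.symm)

end B02b

/-- B02 -/
theorem st_B02 : ST_B02 := by
  intro D _ m lam h
  classical
  obtain ⟨α, hα⟩ := exists_firstReturn m.face (Des m lam)
  obtain ⟨σ, hσ⟩ := exists_firstReturn m.rot⁻¹ (Des m lam)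
  have H : Ctr m lam (α.trans σ) α := ⟨hα, fun c => hσ (α c)⟩
  have hch : ∀ c : Dn m lam, ∃ k, Chn m lam c.1 (α c).1 k := fun c => b02_chn h c.2 (hα c)
  refine ⟨α.trans σ, α, H.ve h, ?_, H.ha, H.ht, H.cyc h, ?_, ?_, ?_, ?_⟩
  · intro c
    obtain ⟨k, hk⟩ := hch c
    have := H.lamtau h hk
    have := hk.kpos
    omega
  · intro c hc
    obtain ⟨k, hk⟩ := hch c
    have h1 := H.lamtau h hk
    have hk1 : k = 1 := by omega
    have h2 := hk.last
    rw [hk1, pow_one] at h2
    exact h2
  · intro c y hc hy hyl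
    obtain ⟨k, hk⟩ := hch c
    have h1 := H.lamtau h hk
    have hk2 : 1 < k := by omega
    set e : Dn m lam := ⟨m.opp ((m.face ^ 1) c.1), b02_opp_des h (hk.up 1 one_pos hk2)⟩ with he
    have h2 := H.lo h hk (le_refl 1) hk2 e rfl
    have h3 := hk.lab h (le_refl 1) hk2
    have h4 : lam e.1 = lam y.1 := by
      show lam (m.opp ((m.face ^ 1) c.1)) = _
      omega
    have h5 : e = y := by
      unfold Lo lb at h2 hy
      rw [h4] at h2
      exact h2.unique hy
    rw [← h5]
    show m.face c.1 = m.opp (m.opp ((m.face ^ 1) c.1))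
    rw [m.opp_opp, pow_one]
  · intro c x y hc hx hy hyl
    obtain ⟨k, hk⟩ := hch c
    have h1 := H.lamtau h hk
    have hyk : lam y.1 ≤ lam ((α.trans σ) c).1 := by
      by_contra hcon
      have h2 : y = (α.trans σ) c := by
        refine Hit.eq_of_p ?_ hy
        show lam ((α.trans σ) c).1 ≤ lam y.1
        omega
      rw [h2] at hcon
      exact hcon (le_refl _)
    obtain ⟨i, hi⟩ : ∃ i, lam c.1 + i = lam x.1 + 1 := ⟨lam x.1 + 1 - lam c.1, by omega⟩
    have hi1 : 1 ≤ i := by omega
    have hik : i + 1 < k := by omega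
    set e : Dn m lam := ⟨m.opp ((m.face ^ i) c.1), b02_opp_des h (hk.up i (by omega) (by omega))⟩
      with he
    set e' : Dn m lam := ⟨m.opp ((m.face ^ (i + 1)) c.1),
      b02_opp_des h (hk.up (i + 1) (by omega) (by omega))⟩ with he'
    have h2 := H.lo h hk hi1 (by omega) e rfl
    have h2' := H.lo h hk (i := i + 1) (by omega) hik e' rfl
    have h3 := hk.lab h hi1 (by omega)
    have h3' := hk.lab h (i := i + 1) (by omega) hik
    have h4 : lam e.1 = lam x.1 := by
      show lam (m.opp ((m.face ^ i) c.1)) = _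
      omega
    have h4' : lam e'.1 = lam y.1 := by
      show lam (m.opp ((m.face ^ (i + 1)) c.1)) = _
      omega
    have h5 : e = x := by
      unfold Lo lb at h2 hx
      rw [h4] at h2
      exact h2.unique hx
    have h5' : e' = y := by
      unfold Lo lb at h2' hy
      rw [h4'] at h2'
      exact h2'.unique hy
    rw [← h5, ← h5']
    show m.face (m.opp (m.opp ((m.face ^ i) c.1))) = m.opp (m.opp ((m.face ^ (i + 1)) c.1))
    rw [m.opp_opp, m.opp_opp, pow_succ', Equiv.Perm.mul_apply]
  · intro c hc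
    obtain ⟨k, hk⟩ := hch c
    have h1 := H.lamtau h hk
    have h2 := H.last h hk (by omega)
    rw [h2, m.opp_opp, ← Equiv.Perm.mul_apply, ← pow_succ']
    have h3 : k - 1 + 1 = k := by omega
    rw [h3, hk.last]

end QRB
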